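import Pool.Agent.N936.TC.Stm

/-!
# Project TC: the suspension is indecomposable
-/

set_option autoImplicit false

open Set Topology

namespace Pool.Agent.N935.TC

open Pool.Agent.N936.TC

/-- the ramp from `a` to `b` -/
noncomputable def tau (a b s : ℝ) : ℝ := min 1 (max 0 ((s - a) / (b - a)))

theorem tau_cont (a b : ℝ) : Continuous (tau a b) := by
  unfold tau
  exact continuous_const.min (continuous_const.max ((continuous_id.sub continuous_const).div_const _))

theorem tau_le {a b s : ℝ} (hab : a < b) (hs : s ≤ a) : tau a b s = 0 := by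
  unfold tau
  have h : (s - a) / (b - a) ≤ 0 := div_nonpos_of_nonpos_of_nonneg (by linarith) (by linarith)
  rw [max_eq_left h]
  norm_num

theorem tau_ge {a b s : ℝ} (hab : a < b) (hs : b ≤ s) : tau a b s = 1 := by
  unfold tau
  have h : 1 ≤ (s - a) / (b - a) := by
    rw [le_div_iff₀ (by linarith)]
    linarith
  rw [max_eq_right (by linarith), min_eq_left h]

/-- the indicator of a set as a real function -/
noncomputable def chi (D : Set Q) : Q → ℝ := D.indicator fun _ => 1

theorem chi_mem {D : Set Q} {q : Q} (h : q ∈ D) : chi D q = 1 := by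
  simp [chi, h]

theorem chi_nmem {D : Set Q} {q : Q} (h : q ∉ D) : chi D q = 0 := by
  simp [chi, h]

theorem chi_cont {D : Set Q} (hD : IsClopen D) : Continuous (chi D) := by
  unfold chi
  refine Continuous.indicator ?_ continuous_const
  intro a ha
  rw [hD.frontier_eq] at ha
  exact absurd ha (Set.notMem_empty a)

theorem chi_01 (D : Set Q) (q : Q) : chi D q = 0 ∨ chi D q = 1 := by
  by_cases h : q ∈ D
  · exact Or.inr (chi_mem h)
  · exact Or.inl (chi_nmem h)

/-- the digit as a real number -/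
noncomputable def bit (i : Bool) : ℝ := if i then 1 else 0

/-- the function on the edges -/
noncomputable def ff (σ : Bool → Q ≃ₜ Q) (D : Set Q) (a b : ℝ) (p : Q × Bool × I) : ℝ :=
  (1 - tau a b (p.2.2 : ℝ)) * chi D p.1 + tau a b (p.2.2 : ℝ) *
    (bit p.2.1 * chi D (σ true p.1) + (1 - bit p.2.1) * chi D (σ false p.1))

theorem ff_eq (σ : Bool → Q ≃ₜ Q) (D : Set Q) (a b : ℝ) (q : Q) (i : Bool) (s : I) :
    ff σ D a b (q, i, s) = (1 - tau a b (s : ℝ)) * chi D q + tau a b (s : ℝ) * chi D (σ i q) := by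
  unfold ff bit
  cases i <;> simp

theorem ff_cont (σ : Bool → Q ≃ₜ Q) (D : Set Q) (hD : IsClopen D) (a b : ℝ) :
    Continuous (ff σ D a b) := by
  have h1 : Continuous fun p : Q × Bool × I => tau a b (p.2.2 : ℝ) :=
    (tau_cont a b).comp (continuous_subtype_val.comp (continuous_snd.comp continuous_snd))
  have h2 : Continuous fun p : Q × Bool × I => chi D p.1 := (chi_cont hD).comp continuous_fst
  have h3 : Continuous fun p : Q × Bool × I => bit p.2.1 :=
    (continuous_of_discreteTopology (f := bit)).comp (continuous_fst.comp continuous_snd)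
  have h4 : ∀ i, Continuous fun p : Q × Bool × I => chi D (σ i p.1) := fun i =>
    (chi_cont hD).comp ((σ i).continuous.comp continuous_fst)
  unfold ff
  exact ((continuous_const.sub h1).mul h2).add
    (h1.mul ((h3.mul (h4 true)).add ((continuous_const.sub h3).mul (h4 false))))

theorem t_IND : Pool.Agent.N936.TC.S_IND := by
  intro σ X _ _ Φ hM hC A B hA hB hAB
  by_contra hcon
  push Not at hcon
  obtain ⟨hA1, hB1⟩ := hcon
  have hAc : IsClosed A := hA.1.isClosed
  have hBc : IsClosed B := hB.1.isClosed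
  obtain ⟨x1, hx1⟩ : ∃ x, x ∉ A := by
    by_contra h
    push Not at h
    exact hA1 (Set.eq_univ_of_forall h)
  obtain ⟨x2, hx2⟩ : ∃ x, x ∉ B := by
    by_contra h
    push Not at h
    exact hB1 (Set.eq_univ_of_forall h)
  obtain ⟨⟨q1, i1, s1⟩, rfl⟩ := hM.surj x1
  obtain ⟨⟨q2, i2, s2⟩, rfl⟩ := hM.surj x2
  -- a box around the first point
  have hop : IsOpen (Φ ⁻¹' Aᶜ) := hAc.isOpen_compl.preimage hM.cont
  obtain ⟨C1, v, hC1o, hvo, hq1, hv, hbox⟩ := isOpen_prod_iff.1 hop q1 (i1, s1) hx1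
  have hso : IsOpen {s : I | (i1, s) ∈ v} :=
    hvo.preimage (Continuous.prodMk_right i1)
  obtain ⟨ε, hε, hball⟩ := Metric.isOpen_iff.1 hso s1 hv
  set a : ℝ := max 0 ((s1 : ℝ) - ε) with ha
  set b : ℝ := min 1 ((s1 : ℝ) + ε) with hb
  have h01 : 0 ≤ (s1 : ℝ) := s1.2.1
  have h11 : (s1 : ℝ) ≤ 1 := s1.2.2
  have ha0 : 0 ≤ a := le_max_left _ _
  have hb1 : b ≤ 1 := min_le_left _ _
  have hab : a < b := by
    rw [ha, hb]
    apply max_lt
    · apply lt_min
      · norm_num
      · linarith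
    · apply lt_min
      · linarith
      · linarith
  have hin : ∀ q ∈ C1, ∀ s : I, a < (s : ℝ) → (s : ℝ) < b → Φ (q, i1, s) ∉ A := by
    intro q hq s h1 h2
    have hs : s ∈ {s : I | (i1, s) ∈ v} := by
      apply hball
      rw [Metric.mem_ball, Subtype.dist_eq, Real.dist_eq, abs_lt]
      have h3 : (s1 : ℝ) - ε ≤ a := le_max_right _ _
      have h4 : b ≤ (s1 : ℝ) + ε := min_le_right _ _
      constructor <;> linarith
    have : (q, (i1, s)) ∈ Φ ⁻¹' Aᶜ := hbox ⟨hq, hs⟩
    exact this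
  -- the second open set
  have hC2o : IsOpen {q : Q | Φ (q, i2, s2) ∉ B} := by
    have hc : Continuous fun q : Q => Φ (q, i2, s2) :=
      hM.cont.comp (continuous_id.prodMk continuous_const)
    exact hBc.isOpen_compl.preimage hc
  obtain ⟨D, hD, hinv, ⟨q3, hq3, hq3D, hq3s⟩, ⟨q4, hq4, hq4D, hq4s⟩⟩ :=
    hC i1 C1 {q : Q | Φ (q, i2, s2) ∉ B} hC1o ⟨q1, hq1⟩ hC2o ⟨q2, hx2⟩
  have hf0 : ∀ q i, ff σ D a b (q, i, 0) = chi D q := by
    intro q i
    rw [ff_eq, tau_le hab (by simpa using ha0)]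
    ring
  have hf1 : ∀ q i, ff σ D a b (q, i, 1) = chi D (σ i q) := by
    intro q i
    rw [ff_eq, tau_ge hab (by simpa using hb1)]
    ring
  obtain ⟨g, hg, hgf⟩ := hM.fact (ff σ D a b) (ff_cont σ D hD a b)
    (fun q i j => by rw [hf0, hf0]) (fun q i j => by rw [hf1, hf0])
  have hBA : ∀ x, x ∉ B → x ∈ A := by
    intro x hx
    have : x ∈ A ∪ B := by rw [hAB]; exact mem_univ x
    exact this.resolve_right hx
  have hg01 : ∀ x ∈ A, g x = 0 ∨ g x = 1 := by
    intro x hx
    obtain ⟨⟨q, i, s⟩, rfl⟩ := hM.surj x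
    rw [hgf, ff_eq]
    rcases hinv i q with h | ⟨rfl, hq⟩
    · have he : chi D (σ i q) = chi D q := by
        by_cases hq : q ∈ D
        · rw [chi_mem hq, chi_mem (h.1 hq)]
        · rw [chi_nmem hq, chi_nmem fun h' => hq (h.2 h')]
      rw [he]
      have : (1 - tau a b (s : ℝ)) * chi D q + tau a b (s : ℝ) * chi D q = chi D q := by ring
      rw [this]
      exact chi_01 D q
    · by_cases h1 : (s : ℝ) ≤ a
      · rw [tau_le hab h1]
        simpa using chi_01 D q
      · by_cases h2 : b ≤ (s : ℝ)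
        · rw [tau_ge hab h2]
          simpa using chi_01 D (σ i q)
        · push Not at h1 h2
          exact absurd hx (hin q hq s h1 h2)
  have hy1 : g (Φ (q3, i2, s2)) = 1 := by
    rw [hgf, ff_eq, chi_mem hq3D, chi_mem (hq3s i2)]
    ring
  have hy0 : g (Φ (q4, i2, s2)) = 0 := by
    rw [hgf, ff_eq, chi_nmem hq4D, chi_nmem (hq4s i2)]
    ring
  have hiv := hA.2.isPreconnected.intermediate_value (hBA _ hq4) (hBA _ hq3) hg.continuousOn
  rw [hy0, hy1] at hiv
  obtain ⟨x, hx, hgx⟩ := hiv (show (1 / 2 : ℝ) ∈ Icc 0 1 by constructor <;> norm_num)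
  rcases hg01 x hx with h | h
  · rw [h] at hgx
    norm_num at hgx
  · rw [h] at hgx
    norm_num at hgx

end Pool.Agent.N935.TC
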